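import Pool.Agent.Helper10.Pic.Lib

set_option autoImplicit false

/-!
# Module DIFF : differential geometry of the action of `U(2,1)` on the Siegel domain
-/

namespace Pool.Agent.Helper26.Pic

open MeasureTheory Topology
open scoped ComplexConjugate
open Pool.Agent.Helper10.Pic

/-! ### Algebra -/

/-- coordinates of the images of the basis vectors -/
noncomputable def E1 (g : V3 ≃ₗ[ℂ] V3) : V3 := g (1, 0, 0)
noncomputable def E2 (g : V3 ≃ₗ[ℂ] V3) : V3 := g (0, 1, 0)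
noncomputable def E3 (g : V3 ≃ₗ[ℂ] V3) : V3 := g (0, 0, 1)

theorem g_apply (g : V3 ≃ₗ[ℂ] V3) (v : V3) :
    g v = v.1 • E1 g + v.2.1 • E2 g + v.2.2 • E3 g := by
  unfold E1 E2 E3
  rw [← map_smul, ← map_smul, ← map_smul, ← map_add, ← map_add]
  congr 1
  refine Prod.ext ?_ (Prod.ext ?_ ?_) <;> simp

/-- completeness relation -/
theorem complete {g : V3 ≃ₗ[ℂ] V3} (hg : g ∈ UG) (y : V3) :
    y = conj (herm (E3 g) y) • E1 g + conj (herm (E2 g) y) • E2 g
      + conj (herm (E1 g) y) • E3 g := by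
  obtain ⟨w, rfl⟩ := g.surjective y
  have h1 : conj (herm (E1 g) (g w)) = w.2.2 := by
    unfold E1
    rw [hg]
    simp [herm]
  have h2 : conj (herm (E2 g) (g w)) = w.2.1 := by
    unfold E2
    rw [hg]
    simp [herm]
  have h3 : conj (herm (E3 g) (g w)) = w.1 := by
    unfold E3
    rw [hg]
    simp [herm]
  rw [h1, h2, h3]
  exact g_apply g w

/-- the invariance identity -/
theorem key {g : V3 ≃ₗ[ℂ] V3} (hg : g ∈ UG) (A B : V3) :
    (A.1 * (E1 g).1 + A.2.1 * (E1 g).2.1 + A.2.2 * (E1 g).2.2) *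
        (B.1 * conj (E3 g).1 + B.2.1 * conj (E3 g).2.1 + B.2.2 * conj (E3 g).2.2)
      + (A.1 * (E2 g).1 + A.2.1 * (E2 g).2.1 + A.2.2 * (E2 g).2.2) *
        (B.1 * conj (E2 g).1 + B.2.1 * conj (E2 g).2.1 + B.2.2 * conj (E2 g).2.2)
      + (A.1 * (E3 g).1 + A.2.1 * (E3 g).2.1 + A.2.2 * (E3 g).2.2) *
        (B.1 * conj (E1 g).1 + B.2.1 * conj (E1 g).2.1 + B.2.2 * conj (E1 g).2.2)
      = A.1 * B.2.2 + A.2.1 * B.2.1 + A.2.2 * B.1 := by
  have h := complete hg (B.2.2, B.2.1, B.1)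
  have h1 := congrArg Prod.fst h
  have h2 := congrArg (fun v : V3 => v.2.1) h
  have h3 := congrArg (fun v : V3 => v.2.2) h
  simp only [herm, Prod.fst_add, Prod.snd_add, Prod.smul_fst, Prod.smul_snd, smul_eq_mul,
    map_add, map_mul, Complex.conj_conj] at h1 h2 h3
  linear_combination (-A.1) * h1 - A.2.1 * h2 - A.2.2 * h3

theorem herm_vec' (p : Pt) : herm (vec p) (vec p) = -(hgt p : ℂ) := by
  have h : (‖p.2‖ ^ 2 : ℂ) = p.2 * conj p.2 := by
    rw [Complex.mul_conj, Complex.normSq_eq_norm_sq]; push_cast; rfl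
  have h1 : ((p.1.re : ℝ) : ℂ) = (p.1 + conj p.1) / 2 := by
    rw [Complex.add_conj]; push_cast; ring
  unfold herm vec hgt
  push_cast
  rw [h, h1]
  simp
  ring

theorem x3_ne' {g : V3 ≃ₗ[ℂ] V3} (hg : g ∈ UG) {p : Pt} (hp : p ∈ SD) :
    (g (vec p)).2.2 ≠ 0 := by
  intro h0
  have h1 : herm (g (vec p)) (g (vec p)) = -(hgt p : ℂ) := by
    rw [hg]; exact herm_vec' p
  have hp' : 0 < hgt p := hp
  have h2 : herm (g (vec p)) (g (vec p)) = ((‖(g (vec p)).2.1‖ ^ 2 : ℝ) : ℂ) := by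
    unfold herm
    rw [h0, Complex.mul_conj, Complex.normSq_eq_norm_sq]
    simp
  rw [h2] at h1
  have h3 : ‖(g (vec p)).2.1‖ ^ 2 = -hgt p := by exact_mod_cast h1
  have := sq_nonneg ‖(g (vec p)).2.1‖
  linarith

theorem vec_act' {g : V3 ≃ₗ[ℂ] V3} (hg : g ∈ UG) {p : Pt} (hp : p ∈ SD) :
    g (vec p) = (g (vec p)).2.2 • vec (act g p) := by
  have h := x3_ne' hg hp
  refine Prod.ext ?_ (Prod.ext ?_ ?_)
  · simp only [vec, act, pnt, Prod.smul_fst, smul_eq_mul] at h ⊢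
    rw [mul_div_cancel₀ _ h]
  · simp only [vec, act, pnt, Prod.smul_fst, Prod.smul_snd, smul_eq_mul] at h ⊢
    rw [mul_div_cancel₀ _ h]
  · simp [vec]

theorem hgt_act' {g : V3 ≃ₗ[ℂ] V3} (hg : g ∈ UG) {p : Pt} (hp : p ∈ SD) :
    hgt (act g p) = hgt p / ‖(g (vec p)).2.2‖ ^ 2 := by
  have h := x3_ne' hg hp
  have h1 : herm (g (vec p)) (g (vec p)) = -(hgt p : ℂ) := by
    rw [hg]; exact herm_vec' p
  have h2 : herm (g (vec p)) (g (vec p)) =
      ((‖(g (vec p)).2.2‖ ^ 2 * (-hgt (act g p)) : ℝ) : ℂ) := by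
    rw [vec_act' hg hp]
    have h3 : herm ((g (vec p)).2.2 • vec (act g p)) ((g (vec p)).2.2 • vec (act g p))
        = ((g (vec p)).2.2 * conj (g (vec p)).2.2) * herm (vec (act g p)) (vec (act g p)) := by
      simp only [herm, Prod.smul_fst, Prod.smul_snd, smul_eq_mul, map_mul]
      ring
    rw [h3, herm_vec', Complex.mul_conj, Complex.normSq_eq_norm_sq]
    have h4 : ((g (vec p)).2.2 • vec (act g p)).2.2 = (g (vec p)).2.2 := by simp [vec]
    rw [h4]
    push_cast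
    ring
  rw [h2] at h1
  have h5 : ‖(g (vec p)).2.2‖ ^ 2 * (-hgt (act g p)) = -hgt p := by exact_mod_cast h1
  have h6 : ‖(g (vec p)).2.2‖ ^ 2 ≠ 0 := pow_ne_zero _ (norm_ne_zero_iff.mpr h)
  rw [eq_div_iff h6]
  linarith

theorem act_mem' {g : V3 ≃ₗ[ℂ] V3} (hg : g ∈ UG) {p : Pt} (hp : p ∈ SD) : act g p ∈ SD := by
  show 0 < hgt (act g p)
  rw [hgt_act' hg hp]
  have h := x3_ne' hg hp
  have hp' : 0 < hgt p := hp
  positivity

theorem act_inv' {g : V3 ≃ₗ[ℂ] V3} (hg : g ∈ UG) {p : Pt} (hp : p ∈ SD) :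
    act g⁻¹ (act g p) = p := by
  have h := x3_ne' hg hp
  have h1 : g⁻¹ (vec (act g p)) = ((g (vec p)).2.2)⁻¹ • vec p := by
    have h2 : vec (act g p) = ((g (vec p)).2.2)⁻¹ • g (vec p) := by
      have h3 := vec_act' hg hp
      rw [eq_inv_smul_iff₀ h]
      exact h3.symm
    rw [h2, map_smul]
    congr 1
    exact g.symm_apply_apply (vec p)
  unfold act
  rw [show pnt (g (vec p)) = act g p from rfl, h1]
  clear h1
  generalize (g (vec p)).2.2 = x at h ⊢
  unfold pnt vec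
  refine Prod.ext ?_ ?_
  · simp only [Prod.smul_fst, Prod.smul_snd, smul_eq_mul, mul_one]
    rw [mul_comm, mul_div_assoc, div_self (inv_ne_zero h), mul_one]
  · simp only [Prod.smul_fst, Prod.smul_snd, smul_eq_mul, mul_one]
    rw [mul_comm, mul_div_assoc, div_self (inv_ne_zero h), mul_one]

/-! ### Derivative of the action -/

/-- linear part of the coordinates -/
noncomputable def L1 (g : V3 ≃ₗ[ℂ] V3) : Pt →L[ℂ] ℂ :=
  (E1 g).1 • ContinuousLinearMap.fst ℂ ℂ ℂ + (E2 g).1 • ContinuousLinearMap.snd ℂ ℂ ℂ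
noncomputable def L2 (g : V3 ≃ₗ[ℂ] V3) : Pt →L[ℂ] ℂ :=
  (E1 g).2.1 • ContinuousLinearMap.fst ℂ ℂ ℂ + (E2 g).2.1 • ContinuousLinearMap.snd ℂ ℂ ℂ
noncomputable def L3 (g : V3 ≃ₗ[ℂ] V3) : Pt →L[ℂ] ℂ :=
  (E1 g).2.2 • ContinuousLinearMap.fst ℂ ℂ ℂ + (E2 g).2.2 • ContinuousLinearMap.snd ℂ ℂ ℂ

theorem c1 (g : V3 ≃ₗ[ℂ] V3) (p : Pt) : (g (vec p)).1 = L1 g p + (E3 g).1 := by
  rw [g_apply g (vec p)]
  simp [vec, L1]
  ring

theorem c2 (g : V3 ≃ₗ[ℂ] V3) (p : Pt) : (g (vec p)).2.1 = L2 g p + (E3 g).2.1 := by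
  rw [g_apply g (vec p)]
  simp [vec, L2]
  ring

theorem c3 (g : V3 ≃ₗ[ℂ] V3) (p : Pt) : (g (vec p)).2.2 = L3 g p + (E3 g).2.2 := by
  rw [g_apply g (vec p)]
  simp [vec, L3]
  ring

theorem hd_aux (L M : Pt →L[ℂ] ℂ) (a b : ℂ) (p : Pt) (h : M p + b ≠ 0) :
    HasFDerivAt (fun q => (L q + a) / (M q + b))
      ((M p + b)⁻¹ • (L - ((L p + a) / (M p + b)) • M)) p := by
  have hL : HasFDerivAt (fun q => L q + a) L p := L.hasFDerivAt.add_const a
  have hM : HasFDerivAt (fun q => M q + b) M p := M.hasFDerivAt.add_const b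
  have hI : HasFDerivAt (fun q => (M q + b)⁻¹) (-((M p + b) ^ 2)⁻¹ • M) p :=
    (hasDerivAt_inv h).comp_hasFDerivAt p hM
  have := hL.mul hI
  refine (this.congr_fderiv ?_).congr_of_eventuallyEq ?_
  · ext <;> simp <;> field_simp <;> ring
  · exact Filter.Eventually.of_forall fun q => by simp [div_eq_mul_inv]

/-- the complex derivative of the action -/
noncomputable def JC (g : V3 ≃ₗ[ℂ] V3) (p : Pt) : Pt →L[ℂ] Pt :=
  (((g (vec p)).2.2)⁻¹ • (L1 g - (act g p).1 • L3 g)).prod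
    (((g (vec p)).2.2)⁻¹ • (L2 g - (act g p).2 • L3 g))

theorem hasFDerivAt_actC (g : V3 ≃ₗ[ℂ] V3) {p : Pt} (h : (g (vec p)).2.2 ≠ 0) :
    HasFDerivAt (act g) (JC g p) p := by
  have h' : L3 g p + (E3 g).2.2 ≠ 0 := by rwa [← c3]
  have h1 := hd_aux (L1 g) (L3 g) (E3 g).1 (E3 g).2.2 p h'
  have h2 := hd_aux (L2 g) (L3 g) (E3 g).2.1 (E3 g).2.2 p h'
  have h3 := h1.prodMk h2
  have e1 : (fun q : Pt => ((L1 g q + (E3 g).1) / (L3 g q + (E3 g).2.2),
      (L2 g q + (E3 g).2.1) / (L3 g q + (E3 g).2.2))) = act g := by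
    funext q
    unfold act pnt
    rw [c1, c2, c3]
  rw [e1] at h3
  refine h3.congr_fderiv ?_
  unfold JC
  simp only [act, pnt]
  rw [c1, c2, c3]

theorem hasFDerivAt_act (g : V3 ≃ₗ[ℂ] V3) {p : Pt} (h : (g (vec p)).2.2 ≠ 0) :
    HasFDerivAt (act g) ((JC g p).restrictScalars ℝ) p :=
  (hasFDerivAt_actC g h).restrictScalars ℝ

theorem contDiffOn_act {g : V3 ≃ₗ[ℂ] V3} (hg : g ∈ UG) : ContDiffOn ℝ 2 (act g) SD := by
  have hL1 : ContDiff ℝ 2 (fun q => L1 g q + (E3 g).1) :=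
    ((L1 g).restrictScalars ℝ).contDiff.add contDiff_const
  have hL2 : ContDiff ℝ 2 (fun q => L2 g q + (E3 g).2.1) :=
    ((L2 g).restrictScalars ℝ).contDiff.add contDiff_const
  have hL3 : ContDiff ℝ 2 (fun q => L3 g q + (E3 g).2.2) :=
    ((L3 g).restrictScalars ℝ).contDiff.add contDiff_const
  have hne : ∀ q ∈ SD, L3 g q + (E3 g).2.2 ≠ 0 := by
    intro q hq
    rw [← c3]
    exact x3_ne' hg hq
  have h1 : ContDiffOn ℝ 2 (fun q => (L1 g q + (E3 g).1) / (L3 g q + (E3 g).2.2)) SD :=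
    (hL1.contDiffOn.mul (hL3.contDiffOn.inv hne)).congr fun q _ => div_eq_mul_inv _ _
  have h2 : ContDiffOn ℝ 2 (fun q => (L2 g q + (E3 g).2.1) / (L3 g q + (E3 g).2.2)) SD :=
    (hL2.contDiffOn.mul (hL3.contDiffOn.inv hne)).congr fun q _ => div_eq_mul_inv _ _
  have h3 := h1.prodMk h2
  refine h3.congr fun q _ => ?_
  unfold act pnt
  rw [c1, c2, c3]

theorem measurable_act (g : V3 ≃ₗ[ℂ] V3) : Measurable (act g) := by
  have h1 : Measurable (fun q => L1 g q + (E3 g).1) := (L1 g).continuous.measurable.add_const _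
  have h2 : Measurable (fun q => L2 g q + (E3 g).2.1) := (L2 g).continuous.measurable.add_const _
  have h3 : Measurable (fun q => L3 g q + (E3 g).2.2) := (L3 g).continuous.measurable.add_const _
  have h4 : act g = fun q => ((L1 g q + (E3 g).1) / (L3 g q + (E3 g).2.2),
      (L2 g q + (E3 g).2.1) / (L3 g q + (E3 g).2.2)) := by
    funext q
    unfold act pnt
    rw [c1, c2, c3]
  rw [h4]
  exact (h1.div h3).prodMk (h2.div h3)

/-! ### Invariance of the metric -/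

/-- decomposition of a real linear functional -/
theorem dec (l : Pt →L[ℝ] ℂ) : ∃ a1 a2 b1 b2 : ℂ, ∀ v : Pt,
    l v = a1 * v.1 + a2 * v.2 + b1 * conj v.1 + b2 * conj v.2 := by
  refine ⟨(l (1, 0) - Complex.I * l (Complex.I, 0)) / 2,
    (l (0, 1) - Complex.I * l (0, Complex.I)) / 2,
    (l (1, 0) + Complex.I * l (Complex.I, 0)) / 2,
    (l (0, 1) + Complex.I * l (0, Complex.I)) / 2, fun v => ?_⟩
  have hv : v = v.1.re • ((1 : ℂ), (0 : ℂ)) + v.1.im • (Complex.I, (0 : ℂ))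
      + v.2.re • ((0 : ℂ), (1 : ℂ)) + v.2.im • ((0 : ℂ), Complex.I) := by
    refine Prod.ext ?_ ?_ <;> apply Complex.ext <;> simp
  have h1 : l v = v.1.re • l (1, 0) + v.1.im • l (Complex.I, 0)
      + v.2.re • l (0, 1) + v.2.im • l (0, Complex.I) := by
    conv_lhs => rw [hv]
    simp only [map_add, map_smul]
  rw [h1]
  have e1 : v.1 = v.1.re + v.1.im * Complex.I := (Complex.re_add_im v.1).symm
  have e2 : v.2 = v.2.re + v.2.im * Complex.I := (Complex.re_add_im v.2).symm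
  have e3 : conj v.1 = v.1.re - v.1.im * Complex.I := by
    apply Complex.ext <;> simp
  have e4 : conj v.2 = v.2.re - v.2.im * Complex.I := by
    apply Complex.ext <;> simp
  rw [e3, e4]
  simp only [Complex.real_smul]
  have hI := Complex.I_sq
  linear_combination ((v.1.im : ℂ) * l (Complex.I, 0) + (v.2.im : ℂ) * l (0, Complex.I)) * hI
    - ((l (1, 0) - Complex.I * l (Complex.I, 0)) / 2) * e1
    - ((l (0, 1) - Complex.I * l (0, Complex.I)) / 2) * e2

/-- the Hermitian part of the inverse metric -/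
noncomputable def SS (p : Pt) (a1 a2 b1 b2 : ℂ) : ℂ :=
  (hgt p : ℂ) ^ 2 * (a1 * b1) + (hgt p : ℂ) * ((-a1 * conj p.2 + a2) * (-b1 * p.2 + b2))

theorem gdot_eq {f h : Pt → ℂ} {p : Pt} {a1 a2 b1 b2 a1' a2' b1' b2' : ℂ}
    (hf : ∀ v : Pt, fderiv ℝ f p v = a1 * v.1 + a2 * v.2 + b1 * conj v.1 + b2 * conj v.2)
    (hh : ∀ v : Pt, fderiv ℝ h p v = a1' * v.1 + a2' * v.2 + b1' * conj v.1 + b2' * conj v.2) :
    gdot f h p = 2 * (SS p a1 a2 b1' b2' + SS p a1' a2' b1 b2) := by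
  unfold gdot pd XX YY SS
  simp only [hf, hh]
  simp only [map_neg, map_mul, map_one, map_zero, Complex.conj_I, Complex.conj_conj]
  have hI := Complex.I_sq
  ring_nf
  simp only [hI]
  ring

theorem u_eq (p : Pt) : (hgt p : ℂ) = -(p.1 + conj p.1) - p.2 * conj p.2 := by
  have h := herm_vec' p
  unfold herm vec at h
  simp only [map_one, mul_one, one_mul] at h
  linear_combination h

theorem SS_inv {g : V3 ≃ₗ[ℂ] V3} (hg : g ∈ UG) {p : Pt} (hp : p ∈ SD) (a1 a2 b1 b2 : ℂ) :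
    SS p (a1 * (JC g p (1, 0)).1 + a2 * (JC g p (1, 0)).2)
      (a1 * (JC g p (0, 1)).1 + a2 * (JC g p (0, 1)).2)
      (b1 * conj (JC g p (1, 0)).1 + b2 * conj (JC g p (1, 0)).2)
      (b1 * conj (JC g p (0, 1)).1 + b2 * conj (JC g p (0, 1)).2)
      = SS (act g p) a1 a2 b1 b2 := by
  have hx := x3_ne' hg hp
  have hv := vec_act' hg hp
  have hu := hgt_act' hg hp
  set q := act g p with hq
  set x := (g (vec p)).2.2 with hxdef
  have hxc : conj x ≠ 0 := by simpa using hx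
  have hJ1 : (JC g p (1, 0)).1 = x⁻¹ * ((E1 g).1 - q.1 * (E1 g).2.2) := by
    simp [JC, L1, L3, ← hq, ← hxdef]
  have hJ2 : (JC g p (1, 0)).2 = x⁻¹ * ((E1 g).2.1 - q.2 * (E1 g).2.2) := by
    simp [JC, L2, L3, ← hq, ← hxdef]
  have hJ3 : (JC g p (0, 1)).1 = x⁻¹ * ((E2 g).1 - q.1 * (E2 g).2.2) := by
    simp [JC, L1, L3, ← hq, ← hxdef]
  have hJ4 : (JC g p (0, 1)).2 = x⁻¹ * ((E2 g).2.1 - q.2 * (E2 g).2.2) := by
    simp [JC, L2, L3, ← hq, ← hxdef]
  -- relation for the third column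
  have hcol := hv
  rw [g_apply g (vec p)] at hcol
  have r1 : p.1 * (E1 g).1 + p.2 * (E2 g).1 + (E3 g).1 = x * q.1 := by
    have := congrArg Prod.fst hcol
    simpa [vec] using this
  have r2 : p.1 * (E1 g).2.1 + p.2 * (E2 g).2.1 + (E3 g).2.1 = x * q.2 := by
    have := congrArg (fun v : V3 => v.2.1) hcol
    simpa [vec] using this
  have r3 : p.1 * (E1 g).2.2 + p.2 * (E2 g).2.2 + (E3 g).2.2 = x := by
    have := congrArg (fun v : V3 => v.2.2) hcol
    simpa [vec] using this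
  have s1 : conj p.1 * conj (E1 g).1 + conj p.2 * conj (E2 g).1 + conj (E3 g).1
      = conj x * conj q.1 := by
    have := congrArg conj r1
    simpa using this
  have s2 : conj p.1 * conj (E1 g).2.1 + conj p.2 * conj (E2 g).2.1 + conj (E3 g).2.1
      = conj x * conj q.2 := by
    have := congrArg conj r2
    simpa using this
  have s3 : conj p.1 * conj (E1 g).2.2 + conj p.2 * conj (E2 g).2.2 + conj (E3 g).2.2
      = conj x := by
    have := congrArg conj r3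
    simpa using this
  have hk := key hg (a1, a2, -(a1 * q.1 + a2 * q.2)) (b1, b2, -(b1 * conj q.1 + b2 * conj q.2))
  simp only at hk
  have hu' : (hgt q : ℂ) = (hgt p : ℂ) * (x⁻¹ * (conj x)⁻¹) := by
    rw [hu]
    push_cast
    have : ((‖x‖ : ℂ)) ^ 2 = x * conj x := by
      rw [Complex.mul_conj, Complex.normSq_eq_norm_sq]; push_cast; rfl
    rw [this, div_eq_mul_inv, mul_inv]
  -- abbreviations
  set A1 := a1 * (E1 g).1 + a2 * (E1 g).2.1 + -(a1 * q.1 + a2 * q.2) * (E1 g).2.2 with hA1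
  set A2 := a1 * (E2 g).1 + a2 * (E2 g).2.1 + -(a1 * q.1 + a2 * q.2) * (E2 g).2.2 with hA2
  set A3 := a1 * (E3 g).1 + a2 * (E3 g).2.1 + -(a1 * q.1 + a2 * q.2) * (E3 g).2.2 with hA3
  set B1 := b1 * conj (E1 g).1 + b2 * conj (E1 g).2.1
    + -(b1 * conj q.1 + b2 * conj q.2) * conj (E1 g).2.2 with hB1
  set B2 := b1 * conj (E2 g).1 + b2 * conj (E2 g).2.1
    + -(b1 * conj q.1 + b2 * conj q.2) * conj (E2 g).2.2 with hB2
  set B3 := b1 * conj (E3 g).1 + b2 * conj (E3 g).2.1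
    + -(b1 * conj q.1 + b2 * conj q.2) * conj (E3 g).2.2 with hB3
  have t1 : a1 * (JC g p (1, 0)).1 + a2 * (JC g p (1, 0)).2 = x⁻¹ * A1 := by
    rw [hJ1, hJ2, hA1]; ring
  have t2 : a1 * (JC g p (0, 1)).1 + a2 * (JC g p (0, 1)).2 = x⁻¹ * A2 := by
    rw [hJ3, hJ4, hA2]; ring
  have t3 : b1 * conj (JC g p (1, 0)).1 + b2 * conj (JC g p (1, 0)).2 = (conj x)⁻¹ * B1 := by
    rw [hJ1, hJ2, hB1]; simp only [map_mul, map_inv₀, map_sub]; ring
  have t4 : b1 * conj (JC g p (0, 1)).1 + b2 * conj (JC g p (0, 1)).2 = (conj x)⁻¹ * B2 := by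
    rw [hJ3, hJ4, hB2]; simp only [map_mul, map_inv₀, map_sub]; ring
  have w1 : A3 = -(p.1 * A1 + p.2 * A2) := by
    rw [hA1, hA2, hA3]
    linear_combination a1 * r1 + a2 * r2 - (a1 * q.1 + a2 * q.2) * r3
  have w2 : B3 = -(conj p.1 * B1 + conj p.2 * B2) := by
    rw [hB1, hB2, hB3]
    linear_combination b1 * s1 + b2 * s2 - (b1 * conj q.1 + b2 * conj q.2) * s3
  rw [t1, t2, t3, t4]
  unfold SS
  rw [w1, w2] at hk
  have up := u_eq p
  have uq := u_eq q
  have e1 : (hgt p : ℂ) ^ 2 * (x⁻¹ * A1 * ((conj x)⁻¹ * B1)) + (hgt p : ℂ) *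
      ((-(x⁻¹ * A1) * conj p.2 + x⁻¹ * A2) * (-((conj x)⁻¹ * B1) * p.2 + (conj x)⁻¹ * B2))
      = (hgt p : ℂ) * (x⁻¹ * (conj x)⁻¹) * (A1 * -(conj p.1 * B1 + conj p.2 * B2) + A2 * B2
        + -(p.1 * A1 + p.2 * A2) * B1) := by
    linear_combination (hgt p : ℂ) * (x⁻¹ * (conj x)⁻¹) * A1 * B1 * up
  rw [e1, hk, ← hu']
  linear_combination (-(hgt q : ℂ)) * a1 * b1 * uq

/-- isometry: the bilinear gradient product is invariant -/
theorem gdot_comp_act {g : V3 ≃ₗ[ℂ] V3} (hg : g ∈ UG) {p : Pt} (hp : p ∈ SD)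
    {f h : Pt → ℂ} (hf : DifferentiableAt ℝ f (act g p)) (hh : DifferentiableAt ℝ h (act g p)) :
    gdot (fun q => f (act g q)) (fun q => h (act g q)) p = gdot f h (act g p) := by
  have hx := x3_ne' hg hp
  obtain ⟨a1, a2, b1, b2, hl⟩ := dec (fderiv ℝ f (act g p))
  obtain ⟨a1', a2', b1', b2', hl'⟩ := dec (fderiv ℝ h (act g p))
  have hJ : ∀ v : Pt, JC g p v = v.1 • JC g p (1, 0) + v.2 • JC g p (0, 1) := by
    intro v
    rw [← map_smul, ← map_smul, ← map_add]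
    congr 1
    refine Prod.ext ?_ ?_ <;> simp
  have key2 : ∀ (F : Pt → ℂ) (a1 a2 b1 b2 : ℂ), DifferentiableAt ℝ F (act g p) →
      (∀ v : Pt, fderiv ℝ F (act g p) v = a1 * v.1 + a2 * v.2 + b1 * conj v.1 + b2 * conj v.2) →
      ∀ v : Pt, fderiv ℝ (fun q => F (act g q)) p v =
        (a1 * (JC g p (1, 0)).1 + a2 * (JC g p (1, 0)).2) * v.1
        + (a1 * (JC g p (0, 1)).1 + a2 * (JC g p (0, 1)).2) * v.2
        + (b1 * conj (JC g p (1, 0)).1 + b2 * conj (JC g p (1, 0)).2) * conj v.1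
        + (b1 * conj (JC g p (0, 1)).1 + b2 * conj (JC g p (0, 1)).2) * conj v.2 := by
    intro F a1 a2 b1 b2 hF hv v
    have h1 : HasFDerivAt (fun q => F (act g q))
        ((fderiv ℝ F (act g p)).comp ((JC g p).restrictScalars ℝ)) p :=
      hF.hasFDerivAt.comp p (hasFDerivAt_act g hx)
    rw [h1.fderiv, ContinuousLinearMap.comp_apply, hv]
    have h2 : ((JC g p).restrictScalars ℝ) v = JC g p v := rfl
    rw [h2, hJ v]
    simp only [Prod.fst_add, Prod.snd_add, Prod.smul_fst, Prod.smul_snd, smul_eq_mul, map_add,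
      map_mul]
    ring
  rw [gdot_eq (key2 f a1 a2 b1 b2 hf hl) (key2 h a1' a2' b1' b2' hh hl'), gdot_eq hl hl',
    SS_inv hg hp, SS_inv hg hp]

theorem gsq_comp_act {g : V3 ≃ₗ[ℂ] V3} (hg : g ∈ UG) {p : Pt} (hp : p ∈ SD)
    {f : Pt → ℂ} (hf : DifferentiableAt ℝ f (act g p)) :
    gsq (fun q => f (act g q)) p = gsq f (act g p) := by
  -- `gsq` is `gdot` of `f` with its conjugate
  have hgs : ∀ (F : Pt → ℂ) (q : Pt), DifferentiableAt ℝ F q →
      (gsq F q : ℂ) = gdot F (fun r => conj (F r)) q := by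
    intro F q hF
    have h1 : ∀ v : Pt, fderiv ℝ (fun r => conj (F r)) q v = conj (fderiv ℝ F q v) := by
      intro v
      have h2 : HasFDerivAt (fun r => conj (F r))
          ((Complex.conjCLE : ℂ →L[ℝ] ℂ).comp (fderiv ℝ F q)) q :=
        (Complex.conjCLE : ℂ →L[ℝ] ℂ).hasFDerivAt.comp q hF.hasFDerivAt
      rw [h2.fderiv]
      rfl
    have h3 : ∀ z : ℂ, z * conj z = ((‖z‖ ^ 2 : ℝ) : ℂ) := by
      intro z
      rw [Complex.mul_conj, Complex.normSq_eq_norm_sq]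
    unfold gsq gdot pd XX YY
    simp only [h1, h3]
    push_cast
    ring
  have hd : DifferentiableAt ℝ (fun q => f (act g q)) p :=
    (hf.hasFDerivAt.comp p (hasFDerivAt_act g (x3_ne' hg hp))).differentiableAt
  have hc : DifferentiableAt ℝ (fun r => conj (f r)) (act g p) :=
    ((Complex.conjCLE : ℂ →L[ℝ] ℂ).hasFDerivAt.comp (act g p) hf.hasFDerivAt).differentiableAt
  have h4 : ((gsq (fun q => f (act g q)) p : ℝ) : ℂ) = ((gsq f (act g p) : ℝ) : ℂ) := by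
    have h5 := gdot_comp_act (h := fun r => conj (f r)) hg hp hf hc
    have h6 := hgs (fun q => f (act g q)) p hd
    have h7 := hgs f (act g p) hf
    rw [h6, h7]
    exact h5
  exact_mod_cast h4

/-! ### Invariance of the measure -/

theorem detC (g : V3 ≃ₗ[ℂ] V3) (p : Pt) :
    LinearMap.det (JC g p : Pt →ₗ[ℂ] Pt) =
      (JC g p (1, 0)).1 * (JC g p (0, 1)).2 - (JC g p (0, 1)).1 * (JC g p (1, 0)).2 := by
  rw [← LinearMap.det_toMatrix (Module.Basis.finTwoProd ℂ), Matrix.det_fin_two]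
  simp [LinearMap.toMatrix_apply]

theorem det_act {g : V3 ≃ₗ[ℂ] V3} (hg : g ∈ UG) {p : Pt} (hp : p ∈ SD) :
    |((JC g p).restrictScalars ℝ).det| = (hgt (act g p) / hgt p) ^ 3 := by
  have hp' : 0 < hgt p := hp
  have hq' : 0 < hgt (act g p) := act_mem' hg hp
  have h1 : ((JC g p).restrictScalars ℝ).det
      = Complex.normSq (LinearMap.det (JC g p : Pt →ₗ[ℂ] Pt)) := by
    have h2 : ((JC g p).restrictScalars ℝ).det
        = LinearMap.det ((JC g p : Pt →ₗ[ℂ] Pt).restrictScalars ℝ) := rfl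
    rw [h2, LinearMap.det_restrictScalars, Algebra.norm_complex_apply]
  set D := LinearMap.det (JC g p : Pt →ₗ[ℂ] Pt) with hD
  have hDc := detC g p
  rw [← hD] at hDc
  have s11 := SS_inv hg hp 1 0 1 0
  have s12 := SS_inv hg hp 1 0 0 1
  have s21 := SS_inv hg hp 0 1 1 0
  have s22 := SS_inv hg hp 0 1 0 1
  simp only [one_mul, zero_mul, add_zero, zero_add] at s11 s12 s21 s22
  have h3 : D * conj D * (hgt p : ℂ) ^ 3 = (hgt (act g p) : ℂ) ^ 3 := by
    have e1 : D * conj D * (hgt p : ℂ) ^ 3 =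
        SS p (JC g p (1, 0)).1 (JC g p (0, 1)).1 (conj (JC g p (1, 0)).1) (conj (JC g p (0, 1)).1)
        * SS p (JC g p (1, 0)).2 (JC g p (0, 1)).2 (conj (JC g p (1, 0)).2)
          (conj (JC g p (0, 1)).2)
        - SS p (JC g p (1, 0)).1 (JC g p (0, 1)).1 (conj (JC g p (1, 0)).2)
          (conj (JC g p (0, 1)).2)
        * SS p (JC g p (1, 0)).2 (JC g p (0, 1)).2 (conj (JC g p (1, 0)).1)
          (conj (JC g p (0, 1)).1) := by
      rw [hDc]
      unfold SS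
      simp only [map_sub, map_mul]
      ring
    rw [e1, s11, s12, s21, s22]
    unfold SS
    ring
  have h4 : Complex.normSq D * hgt p ^ 3 = hgt (act g p) ^ 3 := by
    rw [Complex.mul_conj] at h3
    exact_mod_cast h3
  rw [h1, abs_of_nonneg (Complex.normSq_nonneg _), div_pow, eq_div_iff (pow_ne_zero _ hp'.ne')]
  exact h4

theorem continuous_hgt : Continuous hgt := by
  unfold hgt
  fun_prop

theorem measurableSet_SD : MeasurableSet SD :=
  (isOpen_lt continuous_const continuous_hgt).measurableSet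

theorem hyp_apply' {s : Set Pt} (hs : MeasurableSet s) :
    hyp s = ∫⁻ p in SD, s.indicator (fun p => ENNReal.ofReal ((hgt p ^ 3)⁻¹)) p := by
  rw [hyp, withDensity_apply _ hs, ← lintegral_indicator hs]

theorem image_SD {g : V3 ≃ₗ[ℂ] V3} (hg : g ∈ UG) : act g '' SD = SD := by
  apply Set.Subset.antisymm
  · rintro _ ⟨p, hp, rfl⟩
    exact act_mem' hg hp
  · intro q hq
    have hg' : g⁻¹ ∈ UG := UG.inv_mem hg
    refine ⟨act g⁻¹ q, act_mem' hg' hq, ?_⟩
    have := act_inv' hg' hq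
    rwa [inv_inv] at this

theorem injOn_act {g : V3 ≃ₗ[ℂ] V3} (hg : g ∈ UG) : Set.InjOn (act g) SD := by
  intro p hp q hq h
  rw [← act_inv' hg hp, h, act_inv' hg hq]

/-- invariance of the hyperbolic measure -/
theorem measurePreserving_act {g : V3 ≃ₗ[ℂ] V3} (hg : g ∈ UG) :
    MeasurePreserving (act g) hyp hyp := by
  refine ⟨measurable_act g, ?_⟩
  have : (volume : Measure Pt).IsAddHaarMeasure := by
    rw [Measure.volume_eq_prod]; infer_instance
  ext s hs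
  rw [Measure.map_apply (measurable_act g) hs, hyp_apply' hs,
    hyp_apply' (measurable_act g hs)]
  conv_rhs => rw [← image_SD hg]
  rw [lintegral_image_eq_lintegral_abs_det_fderiv_mul volume measurableSet_SD
    (fun p hp => (hasFDerivAt_act g (x3_ne' hg hp)).hasFDerivWithinAt) (injOn_act hg)]
  refine setLIntegral_congr_fun measurableSet_SD fun p hp => ?_
  have hp' : 0 < hgt p := hp
  have hq' : 0 < hgt (act g p) := act_mem' hg hp
  rw [det_act hg hp]
  by_cases h : act g p ∈ s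
  · rw [Set.indicator_of_mem h, Set.indicator_of_mem (show p ∈ act g ⁻¹' s from h),
      ← ENNReal.ofReal_mul (by positivity)]
    congr 1
    field_simp
  · rw [Set.indicator_of_notMem h, Set.indicator_of_notMem (show p ∉ act g ⁻¹' s from h),
      mul_zero]

end Pool.Agent.Helper26.Pic
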